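import Pool.Agent.Y829.LP6
import Pool.Agent.X29.SW.Conc

/-! Sieve weights on the residue classes to an arbitrary modulus `m`: blocks with at least `C log log m` expected primes. The arguments
are those of `Pool.Agent.Y829.LP3`, `LP4`, `LP6` (helper829), with the concentration of `Pool.Agent.X29.SW`. -/

set_option autoImplicit false

namespace Pool.Agent.X29.SWL

open Finset Filter Topology Pool.Agent.Y829 Pool.Agent.Y829.RP
open Pool.Agent.Y829.RS (VO_V ll_tend evl expneg_le badmass)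
open Pool.Agent.X29.SW (twostage)
open Pool.Agent.Y829.LP hiding concP modelJ classes

/-- Bernoulli's inequality for `V` -/
lemma V_sum {P : Finset ℕ} (hP : ∀ p ∈ P, p.Prime) : 1 - ∑ p ∈ P, 1 / (p : ℝ) ≤ V P := by
  classical
  induction P using Finset.induction_on with
  | empty => simp [V]
  | insert p P hp ih =>
    rw [V_insert hp, sum_insert hp]
    have h1 := ih fun q hq => hP q (mem_insert_of_mem hq)
    have h2 := V_le_one (P := P) fun q hq => hP q (mem_insert_of_mem hq)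
    have h3 := (fac_pos (hP p (mem_insert_self p P))).le
    have h4 : 0 ≤ 1 / (p : ℝ) := by positivity
    nlinarith

lemma phi_split_aux (m : ℕ) (hm : 0 < m) (y : ℕ) : (m.totient : ℝ) / m =
    V (m.primeFactors.filter (fun p => p ≤ y)) * V (m.primeFactors.filter (fun p => ¬ p ≤ y)) := by
  rw [← V_tot hm]
  unfold V
  exact (prod_filter_mul_prod_filter_not _ _ _).symm

/-- `m / φ(m) = O(log log m)` -/
lemma tot_bound : ∃ c : ℝ, 0 < c ∧ ∃ X0 : ℕ, ∀ m : ℕ, X0 ≤ m →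
    c / Real.log (Real.log m) ≤ (m.totient : ℝ) / m := by
  classical
  obtain ⟨cm, hcm, hmert⟩ := mert
  refine ⟨cm / 4, by positivity, ?_⟩
  have E := ((log_tend.eventually_ge_atTop 4).and (ll_tend.eventually_ge_atTop 2)).and
    (eventually_ge_atTop 3)
  obtain ⟨X0, hX0⟩ := E.exists_forall_of_atTop
  refine ⟨X0, fun m hm => ?_⟩
  obtain ⟨⟨e1, e2⟩, e3⟩ := hX0 m hm
  obtain ⟨L, hL⟩ : ∃ L : ℝ, L = Real.log m := ⟨_, rfl⟩
  rw [← hL] at e1 e2 ⊢
  have hm0 : 0 < m := by omega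
  obtain ⟨y, hy⟩ : ∃ y : ℕ, y = ⌊L⌋₊ + 1 := ⟨_, rfl⟩
  have hLy : L ≤ y := by rw [hy]; push_cast; exact (Nat.lt_floor_add_one L).le
  have hyL : (y : ℝ) ≤ 2 * L := by
    rw [hy]
    push_cast
    have := Nat.floor_le (show 0 ≤ L by linarith)
    linarith
  have hy2 : 2 ≤ y := by
    have : (2 : ℝ) ≤ y := by linarith
    exact_mod_cast this
  have hy0 : (0 : ℝ) < y := by linarith
  have hly : Real.log y ≤ 2 * Real.log L := by
    have h1 : Real.log y ≤ Real.log (2 * L) := Real.log_le_log hy0 hyL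
    rw [Real.log_mul (by norm_num) (by linarith)] at h1
    have := Real.log_two_lt_d9
    linarith
  have hlyL : Real.log L ≤ Real.log y := Real.log_le_log (by linarith) hLy
  rw [phi_split_aux m hm0 y]
  have hpr : ∀ p ∈ m.primeFactors, p.Prime := fun p hp => (Nat.mem_primeFactors.1 hp).1
  have h1 : cm / Real.log y ≤ V (m.primeFactors.filter (fun p => p ≤ y)) :=
    hmert y hy2 _ (fun p hp => ⟨hpr p (mem_filter.1 hp).1, (mem_filter.1 hp).2⟩)
  have h2 : cm / (2 * Real.log L) ≤ cm / Real.log y :=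
    div_le_div_of_nonneg_left hcm.le (by linarith) hly
  have h3 : 1 / 2 ≤ V (m.primeFactors.filter (fun p => ¬ p ≤ y)) := by
    refine le_trans ?_ (V_sum fun p hp => hpr p (mem_filter.1 hp).1)
    obtain ⟨F, hF⟩ : ∃ F, F = m.primeFactors.filter (fun p => ¬ p ≤ y) := ⟨_, rfl⟩
    rw [← hF]
    have g1 : ∑ p ∈ F, 1 / (p : ℝ) ≤ F.card * (1 / y) := by
      rw [← nsmul_eq_mul]
      refine sum_le_card_nsmul _ _ _ fun p hp => ?_
      rw [hF, mem_filter] at hp
      exact one_div_le_one_div_of_le hy0 (by exact_mod_cast (by omega : y ≤ p))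
    have g2 : (y : ℝ) ^ F.card ≤ m := by
      have g3 : y ^ F.card ≤ ∏ p ∈ F, p := by
        rw [← prod_const]
        refine prod_le_prod' fun p hp => ?_
        rw [hF, mem_filter] at hp
        omega
      have g4 : ∏ p ∈ F, p ∣ m := by
        refine dvd_trans ?_ (Nat.prod_primeFactors_dvd m)
        rw [hF]
        exact prod_dvd_prod_of_subset _ _ _ (filter_subset _ _)
      exact_mod_cast g3.trans (Nat.le_of_dvd hm0 g4)
    have g5 : F.card * Real.log y ≤ L := by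
      rw [← Real.log_pow, hL]
      exact Real.log_le_log (by positivity) g2
    have g6 : (F.card : ℝ) * 2 ≤ y := by
      have : (F.card : ℝ) * 2 ≤ F.card * Real.log y :=
        mul_le_mul_of_nonneg_left (by linarith) (Nat.cast_nonneg _)
      linarith
    have g7 : (F.card : ℝ) * (1 / y) ≤ 1 / 2 := by
      rw [mul_one_div, div_le_div_iff₀ hy0 (by norm_num)]
      linarith
    linarith
  have h4 : cm / 4 / Real.log L = cm / (2 * Real.log L) * (1 / 2) := by
    field_simp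
    norm_num
  rw [h4]
  exact mul_le_mul (h2.trans h1) h3 (by norm_num) (V_pos fun p hp => hpr p (mem_filter.1 hp).1).le

/-- **Concentration**, for an arbitrary set of primes -/
theorem concP (b Cc : ℕ) : ∃ C0 : ℝ, 1 ≤ C0 ∧ ∃ X0 : ℕ, ∀ X : ℕ, X0 ≤ X → ∀ (U : ℕ) (P : Finset ℕ),
    Real.log X ≤ U → C0 * Real.log (Real.log X) ≤ U * V P → (∀ p ∈ P, p.Prime ∧ p ≤ X) →
    (((range (∏ p ∈ P, p)).filter (fun n => (1 / 2 : ℝ) ^ b * (U * V P) <
      |SO (fun _ => {0}) P U n - U * V P|)).card : ℝ) * Real.log X ^ Cc ≤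
      ((∏ p ∈ P, p : ℕ) : ℝ) := by
  classical
  obtain ⟨C, hC1, hg⟩ := gtail 1
  obtain ⟨b1, hb1⟩ : ∃ b1, b1 = b + 2 + C := ⟨_, rfl⟩
  obtain ⟨U1, hU12, hg'⟩ := hg b1 (by omega)
  obtain ⟨δ, hδ⟩ : ∃ δ : ℝ, δ = (1 / 2 : ℝ) ^ b1 := ⟨_, rfl⟩
  have hδ0 : 0 < δ := by rw [hδ]; positivity
  have hδb : 4 * δ ≤ (1 / 2 : ℝ) ^ b := by
    have h1 : (1 / 2 : ℝ) ^ b1 ≤ (1 / 2 : ℝ) ^ (b + 2) := pow_le_pow_of_le_one (by norm_num) (by norm_num) (by omega)
    rw [pow_add] at h1
    norm_num at h1 ⊢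
    rw [hδ]
    norm_num
    linarith
  have hδ1 : δ ≤ 1 / 4 := by
    have : (1 / 2 : ℝ) ^ b ≤ 1 := pow_le_one₀ (by norm_num) (by norm_num)
    linarith
  have hC1r : (1 : ℝ) ≤ C := by exact_mod_cast hC1
  have hb1r : (1 : ℝ) ≤ b1 := by exact_mod_cast (by omega : 1 ≤ b1)
  obtain ⟨a, ha⟩ : ∃ a : ℝ, a = 1 / ((C : ℝ) * b1) := ⟨_, rfl⟩
  have ha0 : 0 < a := by rw [ha]; positivity
  rw [← ha, ← hδ] at hg'
  obtain ⟨U2, hU2⟩ := (ev a 1 0 ha0).exists_forall_of_atTop
  obtain ⟨Kc, hKc⟩ : ∃ Kc : ℝ, Kc = max 1 ((Cc + 2) * 8 / (δ ^ 2)) := ⟨_, rfl⟩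
  have hKc1 : 1 ≤ Kc := by rw [hKc]; exact le_max_left _ _
  have hKc2 : (Cc + 2) * 8 / (δ ^ 2) ≤ Kc := by rw [hKc]; exact le_max_right _ _
  have hKc0 : 0 ≤ Kc := by linarith
  have E := (((log_tend.eventually_ge_atTop ((U1 : ℝ) + U2 + 1)).and
    (ll_tend.eventually_ge_atTop 1)).and
    (evl a Cc (Real.log 4) ha0)).and (eventually_ge_atTop 3)
  obtain ⟨X0, hX0⟩ := E.exists_forall_of_atTop
  refine ⟨Kc, hKc1, X0, ?_⟩
  intro X hX U P hUL hUV hP
  obtain ⟨⟨⟨e1, e2⟩, e3⟩, e4⟩ := hX0 X hX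
  obtain ⟨L, hL⟩ : ∃ L : ℝ, L = Real.log X := ⟨_, rfl⟩
  obtain ⟨ll, hll⟩ : ∃ ll : ℝ, ll = Real.log L := ⟨_, rfl⟩
  rw [← hL] at hUL hUV e1 e2 e3 ⊢
  rw [← hll] at hUV e2 e3
  have hL1 : 1 ≤ L := by
    have h1 : (0 : ℝ) ≤ U1 := Nat.cast_nonneg _
    have h2 : (0 : ℝ) ≤ U2 := Nat.cast_nonneg _
    linarith
  have hll1 : 1 ≤ ll := e2
  have hUU1 : U1 ≤ U := by
    have h2 : (0 : ℝ) ≤ U2 := Nat.cast_nonneg _
    have h3 : (U1 : ℝ) ≤ U := by linarith
    exact_mod_cast h3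
  have hUU2 : U2 ≤ U := by
    have h2 : (0 : ℝ) ≤ U1 := Nat.cast_nonneg _
    have h3 : (U2 : ℝ) ≤ U := by linarith
    exact_mod_cast h3
  have hUpos : (0 : ℝ) < U := by linarith
  have hU0 : 0 < U := by exact_mod_cast hUpos
  -- the two sets of primes
  obtain ⟨P1, hP1⟩ : ∃ P1, P1 = P.filter (fun p => p ≤ U) := ⟨_, rfl⟩
  obtain ⟨P2, hP2⟩ : ∃ P2, P2 = P.filter (fun p => U < p) := ⟨_, rfl⟩
  have hP1p : ∀ p ∈ P1, p.Prime ∧ p ≤ U := by
    intro p hp
    rw [hP1, mem_filter] at hp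
    exact ⟨(hP p hp.1).1, hp.2⟩
  have hP2p : ∀ p ∈ P2, p.Prime ∧ U < p := by
    intro p hp
    rw [hP2, mem_filter] at hp
    exact ⟨(hP p hp.1).1, hp.2⟩
  have hd : Disjoint P1 P2 := by
    rw [disjoint_left]
    intro p h1 h2
    have := (hP1p p h1).2
    have := (hP2p p h2).2
    omega
  have hun : P1 ∪ P2 = P := by
    rw [hP1, hP2]
    ext p
    rw [mem_union, mem_filter, mem_filter]
    constructor
    · rintro (h | h) <;> exact h.1
    · intro hp
      rcases le_or_gt p U with h | h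
      · exact Or.inl ⟨hp, h⟩
      · exact Or.inr ⟨hp, h⟩
  obtain ⟨-, hst1⟩ := hg' U hUU1 P1 (fun _ => {0}) (fun p hp => ⟨(hP1p p hp).1, by
      have h1 := hU2 U hUU2
      have h2 : Real.log p ≤ Real.log U := Real.log_le_log (by exact_mod_cast (hP1p p hp).1.pos)
        (by exact_mod_cast (hP1p p hp).2)
      linarith⟩) (fun p hp => ⟨by
      rw [singleton_subset_iff, mem_range]; exact (hP1p p hp).1.pos, by simp, by
      simpa using (hP1p p hp).1.one_lt⟩)
  rw [VO_V] at hst1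
  have hmain := twostage P1 P2 U δ (Real.exp (-(3 * (U : ℝ) ^ a))) (fun p hp => (hP1p p hp).1) hP2p hd hδ0
    hδ1 (by
      rw [Real.exp_neg]
      rw [inv_mul_eq_div, le_div_iff₀ (Real.exp_pos _)]
      exact hst1)
  rw [hun] at hmain
  have hV0 : 0 < V P := V_pos fun p hp => (hP p hp).1
  have hbound : (Real.exp (-(3 * (U : ℝ) ^ a)) + 2 * Real.exp (-(δ ^ 2 / 8 * (U * V P)))) * L ^ Cc ≤ 1 := by
    have hL0 : 0 < L := by linarith
    have g1 : 4 * (Real.exp (-(3 * (U : ℝ) ^ a)) * L ^ Cc) ≤ 1 := by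
      apply expneg_le hL0
      rw [← hll]
      have h1 : L ^ a ≤ (U : ℝ) ^ a := Real.rpow_le_rpow hL0.le hUL ha0.le
      have h2 : 0 ≤ L ^ a := by positivity
      linarith
    have g2 : 4 * (Real.exp (-(δ ^ 2 / 8 * (U * V P))) * L ^ Cc) ≤ 1 := by
      apply expneg_le hL0
      rw [← hll]
      have h1 : δ ^ 2 / 8 * (Kc * ll) ≤ δ ^ 2 / 8 * (U * V P) :=
        mul_le_mul_of_nonneg_left hUV (by positivity)
      have h2 : δ ^ 2 / 8 * (Kc * ll) = (δ ^ 2 / 8 * Kc) * ll := by ring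
      have h3 : (Cc : ℝ) + 2 ≤ δ ^ 2 / 8 * Kc := by
        have h5 := mul_le_mul_of_nonneg_left hKc2 (show 0 ≤ δ ^ 2 / 8 by positivity)
        refine le_trans (le_of_eq ?_) h5
        field_simp
      have h4 := mul_le_mul_of_nonneg_right h3 (by linarith : (0 : ℝ) ≤ ll)
      have h5 : Real.log 4 ≤ 2 := by
        have h6 : Real.log 4 = 2 * Real.log 2 := by
          rw [show (4 : ℝ) = 2 ^ 2 by norm_num, Real.log_pow]
          norm_num
        have := Real.log_two_lt_d9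
        rw [h6]
        linarith
      nlinarith
    nlinarith
  have h1 : (((range (∏ p ∈ P, p)).filter (fun n => (1 / 2 : ℝ) ^ b * (U * V P) <
      |SO (fun _ => {0}) P U n - U * V P|)).card : ℝ) ≤
      (((range (∏ p ∈ P, p)).filter (fun n => 3 * δ * (U * V P) <
      |SO (fun _ => {0}) P U n - U * V P|)).card : ℝ) := by
    have : (range (∏ p ∈ P, p)).filter (fun n => (1 / 2 : ℝ) ^ b * (U * V P) <
      |SO (fun _ => {0}) P U n - U * V P|) ⊆ (range (∏ p ∈ P, p)).filter (fun n => 3 * δ * (U * V P) <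
      |SO (fun _ => {0}) P U n - U * V P|) := by
      intro n hn
      rw [mem_filter] at hn ⊢
      refine ⟨hn.1, lt_of_le_of_lt ?_ hn.2⟩
      apply mul_le_mul_of_nonneg_right _ (by positivity)
      linarith
    exact_mod_cast card_le_card this
  have h2 := h1.trans hmain
  have hLC : (0 : ℝ) ≤ L ^ Cc := by positivity
  have h3 := mul_le_mul_of_nonneg_right h2 hLC
  refine h3.trans ?_
  have h4 : (0 : ℝ) ≤ ((∏ p ∈ P, p : ℕ) : ℝ) := Nat.cast_nonneg _
  have h5 := mul_le_mul_of_nonneg_right hbound h4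
  rw [one_mul] at h5
  refine le_trans (le_of_eq ?_) h5
  ring




/-- the model -/
theorem modelJ (K b : ℕ) : ∃ C0 : ℝ, 1 ≤ C0 ∧ ∃ X0 : ℕ, ∀ m : ℕ, X0 ≤ m → ∀ J0 J Q : ℕ,
    Real.log m ≤ J → C0 * Real.log (Real.log m) ≤ m / m.totient * (J / Real.log m) → 1 ≤ Q → Q ≤ m →
    ∀ c : ℕ → ℕ → ℝ, (∀ n, 0 ≤ wt Q c n) → ∑ d ∈ Icc 1 Q, ss c d ^ 2 / d ≤ Real.log m ^ K →
    1 / (2 * Real.log m ^ K) ≤ muD Q m c →
    |∑ j ∈ Ioc J0 (J0 + J), RP.GG Q c (j * m) - J * (muD Q m c / V (PD Q m))| ≤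
      2 * (1 / 2 : ℝ) ^ b * (J * (muD Q m c / V (PD Q m))) := by
  classical
  obtain ⟨C0, hC0, X1, hX1⟩ := concP b (2 * K + 4 * (K + 2) + 10)
  obtain ⟨X2, hX2⟩ := badmass K (K + 2)
  obtain ⟨cm, hcm, hmert⟩ := mert
  obtain ⟨δ, hδ⟩ : ∃ δ : ℝ, δ = (1 / 2 : ℝ) ^ b := ⟨_, rfl⟩
  have hδ0 : 0 < δ := by rw [hδ]; positivity
  have E := (log_tend.eventually_ge_atTop (1 + 2 / (δ * cm))).and (eventually_ge_atTop 3)
  obtain ⟨X3, hX3⟩ := E.exists_forall_of_atTop
  refine ⟨max 1 (C0 / cm), le_max_left _ _, max (max X1 X2) X3, ?_⟩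
  intro m hX J0 J Q hU0 hU hQ1 hQX c hw hc hmu
  have hP' : ∀ p ∈ PN Q m, p.Prime ∧ p ≤ m := fun p hp => by
    have h1 := mem_PQ.1 (mem_filter.1 hp).1
    exact ⟨h1.1, h1.2.trans hQX⟩
  have hc2 := hX2 m ((le_max_right _ _).trans ((le_max_left _ _).trans hX)) Q hQ1 hQX c hc
  obtain ⟨e1, e2⟩ := hX3 m ((le_max_right _ _).trans hX)
  have hm0 : 0 < m := by omega
  have hlog1 : 1 ≤ Real.log m := by
    have : 0 ≤ 2 / (δ * cm) := by positivity
    linarith
  have hll0 : 0 ≤ Real.log (Real.log m) := Real.log_nonneg hlog1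
  have hφ0 : (0 : ℝ) < m.totient := by exact_mod_cast Nat.totient_pos.2 hm0
  have hmr0 : (0 : ℝ) < m := by exact_mod_cast hm0
  have hVPN : cm / Real.log m * (m / m.totient) ≤ V (PN Q m) := by
    have hPm : ∀ p ∈ PQ m, p.Prime := fun p hp => (mem_PQ.1 hp).1
    have g1 : V (PN m m) ≤ V (PN Q m) := by
      refine V_mono ?_ (fun p hp => hPm p (mem_filter.1 hp).1)
      intro p hp
      unfold PN at hp ⊢
      rw [mem_filter, mem_PQ] at hp ⊢
      exact ⟨⟨hp.1.1, hp.1.2.trans hQX⟩, hp.2⟩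
    have g2 : cm / Real.log m ≤ V (PQ m) := hmert m (by omega) (PQ m) (fun p hp => mem_PQ.1 hp)
    have g3 := V_split m m
    have g4 : V (PD m m) = (m.totient : ℝ) / m := by
      rw [← V_tot hm0]
      congr 1
      rw [PD_eq m m hm0]
      refine filter_true_of_mem fun p hp => ?_
      exact Nat.le_of_dvd hm0 (Nat.mem_primeFactors.1 hp).2.1
    rw [g4] at g3
    refine le_trans ?_ g1
    have g5 : V (PN m m) = V (PQ m) * (m / m.totient) := by
      rw [g3]
      field_simp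
    rw [g5]
    exact mul_le_mul_of_nonneg_right g2 (by positivity)
  have hU1 : C0 * Real.log (Real.log m) ≤ J * V (PN Q m) := by
    have g1 : C0 / cm * Real.log (Real.log m) ≤ m / m.totient * (J / Real.log m) :=
      le_trans (mul_le_mul_of_nonneg_right (le_max_right _ _) hll0) hU
    calc C0 * Real.log (Real.log m) = cm * (C0 / cm * Real.log (Real.log m)) := by field_simp
      _ ≤ cm * (m / m.totient * (J / Real.log m)) := mul_le_mul_of_nonneg_left g1 hcm.le
      _ = J * (cm / Real.log m * (m / m.totient)) := by ring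
      _ ≤ _ := mul_le_mul_of_nonneg_left hVPN (Nat.cast_nonneg _)
  have hc1 := hX1 m ((le_max_left _ _).trans ((le_max_left _ _).trans hX)) J (PN Q m) hU0 hU1 hP'
  have hVP : cm / Real.log m ≤ V (PN Q m) := hmert m (by omega) (PN Q m) hP'
  have hV0 : 0 < V (PN Q m) := V_pos fun p hp => (hP' p hp).1
  have hVD : 0 < V (PD Q m) := V_pos fun p hp => (mem_PQ.1 (mem_filter.1 hp).1).1
  obtain ⟨L, hL⟩ : ∃ L : ℝ, L = Real.log m := ⟨_, rfl⟩
  rw [← hL] at hc1 hc2 hc e1 hmu hVP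
  have hL1 : 1 ≤ L := by
    have : 0 ≤ 2 / (δ * cm) := by positivity
    linarith
  have hL0 : 0 < L := by linarith
  obtain ⟨P, hPd⟩ : ∃ P, P = PN Q m := ⟨_, rfl⟩
  rw [← hPd] at hc1 hVP hV0 hP'
  have hP : ∀ p ∈ P, p.Prime := fun p hp => (hP' p hp).1
  obtain ⟨M, hM⟩ : ∃ M, M = ∏ p ∈ P, p := ⟨_, rfl⟩
  have hM0 : 0 < M := by rw [hM]; exact prod_pos fun p hp => (hP p hp).pos
  have hcop : m.Coprime M := by
    rw [hM]
    apply Nat.Coprime.prod_right
    intro p hp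
    rw [Nat.coprime_comm, Nat.Prime.coprime_iff_not_dvd (hP p hp)]
    rw [hPd] at hp
    exact (mem_filter.1 hp).2
  obtain ⟨mi, hmi⟩ := exinv m M hM0 hcop
  have hmip : ∀ p ∈ PN Q m, m * mi ≡ 1 [MOD p] := by
    intro p hp
    rw [← hPd] at hp
    exact hmi.of_dvd (by rw [hM]; exact dvd_prod_of_mem (fun p : ℕ => p) hp)
  have hmic : mi.Coprime M := by
    have h1 : (m * mi).gcd M = Nat.gcd 1 M := hmi.gcd_eq
    rw [Nat.gcd_one_left] at h1
    exact Nat.Coprime.coprime_mul_left (show (m * mi).Coprime M from h1)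
  obtain ⟨N, hN⟩ : ∃ N, N = Q.factorial := ⟨_, rfl⟩
  have hN0 : 0 < N := by rw [hN]; exact Nat.factorial_pos _
  have hdN : ∀ d ∈ Icc 1 Q, d ∣ N := by rw [hN]; exact dvdfac Q
  have hMN : M ∣ N := by
    rw [hM]
    apply Finset.prod_primes_dvd
    · intro p hp; exact (hP p hp).prime
    · intro p hp
      rw [hPd] at hp
      have h1 := mem_PQ.1 (mem_filter.1 hp).1
      exact hdN p (mem_Icc.2 ⟨h1.1.one_lt.le, h1.2⟩)
  obtain ⟨k, hk⟩ := hMN
  rw [← hM] at hc1
  obtain ⟨S, hS⟩ : ∃ S : ℕ → ℝ, S = fun n => SO (fun _ => {0}) P J n := ⟨_, rfl⟩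
  have hSper : ∀ n, S (n + M) = S n := by
    intro n
    rw [hS]
    exact SO_per (fun _ => {0}) P J M n (fun p hp => by
        rw [hM]; exact dvd_prod_of_mem (fun p : ℕ => p) hp)
  have hSk : ∀ k n, S (n + M * k) = S n := by
    intro k
    induction k with
    | zero => intro n; simp
    | succ k ih =>
      intro n
      rw [mul_add, mul_one, ← add_assoc, hSper, ih]
  obtain ⟨bad0, hbad0⟩ : ∃ bad : ℕ → Prop, bad = fun n => δ * (J * V P) < |S n - J * V P| := ⟨_, rfl⟩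
  obtain ⟨bad, hbad⟩ : ∃ bad : ℕ → Prop, bad = fun n => bad0 (n * mi + J0) := ⟨_, rfl⟩
  have hc1' : (((range M).filter bad0).card : ℝ) * L ^ (2 * K + 4 * (K + 2) + 10) ≤ M := by
    rw [hbad0, hS, hδ]
    convert hc1
  have hb0per : ∀ n, bad0 (n + M) ↔ bad0 n := by
    intro n
    rw [hbad0]
    show (δ * (J * V P) < |S (n + M) - J * V P|) ↔ (δ * (J * V P) < |S n - J * V P|)
    rw [hSper]
  have hc1'' : (((range M).filter bad).card : ℝ) * L ^ (2 * K + 4 * (K + 2) + 10) ≤ M := by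
    refine le_trans ?_ hc1'
    apply mul_le_mul_of_nonneg_right _ (by positivity)
    have h1 := aff_count M mi J0 hM0 hmic bad0 hb0per
    rw [hbad]
    exact_mod_cast h1
  -- the bad set has density at most `L^(-C)`
  have hper : ∀ n, (if bad (n + M) then (1 : ℝ) else 0) = if bad n then (1 : ℝ) else 0 := by
    intro n
    have h1 : bad (n + M) ↔ bad n := by
      rw [hbad]
      show bad0 ((n + M) * mi + J0) ↔ bad0 (n * mi + J0)
      have e : (n + M) * mi + J0 = (n * mi + J0) + M * mi := by ring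
      rw [e, hbad0]
      show (δ * (J * V P) < |S ((n * mi + J0) + M * mi) - J * V P|) ↔ (δ * (J * V P) < |S (n * mi + J0) - J * V P|)
      rw [hSk]
    simp only [h1]
  have hcount : (((range N).filter bad).card : ℝ) * L ^ (2 * K + 4 * (K + 2) + 10) ≤ N := by
    have h1 : (((range N).filter bad).card : ℝ) = k * (((range M).filter bad).card : ℝ) := by
      rw [card_filter, card_filter, hk]
      push_cast
      exact per_sum hper k
    rw [h1, hk]
    push_cast
    have := mul_le_mul_of_nonneg_left hc1'' (Nat.cast_nonneg (α := ℝ) k)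
    linarith
  have hb := hc2 N hdN ((range N).filter bad) (filter_subset _ _) hcount
  have hb' : ∑ n ∈ (range N).filter bad, |wt Q c n| = ∑ n ∈ (range N).filter bad, wt Q c n :=
    sum_congr rfl fun n _ => abs_of_nonneg (hw n)
  rw [hb'] at hb
  -- the weighted sum
  obtain ⟨mu', hmu'⟩ : ∃ mu' : ℝ, mu' = muD Q m c := ⟨_, rfl⟩
  have hUr : (0 : ℝ) ≤ J := Nat.cast_nonneg _
  have hNr : (0 : ℝ) < N := by exact_mod_cast hN0
  have hsw : ∑ n ∈ range N, wt Q c n * fr (PD Q m) n = N * mu' := by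
    rw [hmu']
    unfold muD
    rw [← hN]
    field_simp
  rw [← hmu'] at hmu ⊢
  have hmu0 : 0 < mu' := lt_of_lt_of_le (by positivity) hmu
  obtain ⟨w', hw'⟩ : ∃ w' : ℕ → ℝ, w' = fun n => wt Q c n * fr (PD Q m) n := ⟨_, rfl⟩
  have hw'0 : ∀ n, 0 ≤ w' n := by
    intro n
    rw [hw']
    exact mul_nonneg (hw n) (fr_nonneg _ _)
  have hw'1 : ∀ n, w' n ≤ wt Q c n := by
    intro n
    rw [hw']
    exact mul_le_of_le_one_right (hw n) (fr_le _ _)
  have hsw' : ∑ n ∈ range N, w' n = N * mu' := by rw [hw']; exact hsw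
  have h1 : |∑ n ∈ range N, w' n * S (n * mi + J0) - J * V P * ∑ n ∈ range N, w' n| ≤
      2 * δ * (J * V P) * (N * mu') := by
    have h2 : ∑ n ∈ range N, w' n * S (n * mi + J0) - J * V P * ∑ n ∈ range N, w' n =
        ∑ n ∈ range N, w' n * (S (n * mi + J0) - J * V P) := by
      rw [mul_sum, ← sum_sub_distrib]
      apply sum_congr rfl
      intro n _
      ring
    rw [h2]
    refine (abs_sum_le_sum_abs _ _).trans ?_
    have h3 : ∀ n ∈ range N, |w' n * (S (n * mi + J0) - J * V P)| ≤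
        w' n * (δ * (J * V P)) + (if bad n then wt Q c n * J else 0) := by
      intro n _
      rw [abs_mul, abs_of_nonneg (hw'0 n)]
      by_cases hbn : bad n
      · rw [if_pos hbn]
        have h4 : |S (n * mi + J0) - J * V P| ≤ J := by
          have a1 : S (n * mi + J0) ≤ J := by rw [hS]; exact SO_le (fun _ => {0}) P J _
          have a2 : 0 ≤ S (n * mi + J0) := by rw [hS]; exact SO_nonneg (fun _ => {0}) P J _
          have a3 : J * V P ≤ J * 1 := mul_le_mul_of_nonneg_left (V_le_one hP) hUr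
          have a4 : 0 ≤ J * V P := by positivity
          rw [abs_le]
          constructor <;> linarith
        have h5 := mul_le_mul (hw'1 n) h4 (abs_nonneg _) (hw n)
        have h6 : 0 ≤ w' n * (δ * (J * V P)) := by
          have := hw'0 n
          positivity
        linarith
      · rw [if_neg hbn, add_zero]
        apply mul_le_mul_of_nonneg_left _ (hw'0 n)
        rw [hbad, hbad0] at hbn
        exact not_lt.1 hbn
    refine (sum_le_sum h3).trans ?_
    rw [sum_add_distrib, ← sum_mul, hsw', ← sum_filter, ← sum_mul]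
    have h4 : (∑ n ∈ (range N).filter bad, wt Q c n) * J ≤ δ * (J * V P) * (N * mu') := by
      have h5 : (∑ n ∈ (range N).filter bad, wt Q c n) ≤ N / L ^ (K + 2) := by
        rw [le_div_iff₀ (by positivity)]
        exact hb
      have h6 : (N : ℝ) / L ^ (K + 2) ≤ δ * V P * (N * mu') := by
        have h7 : δ * (cm / L) * (N * (1 / (2 * L ^ K))) ≤ δ * V P * (N * mu') := by
          apply mul_le_mul
          · exact mul_le_mul_of_nonneg_left hVP hδ0.le
          · exact mul_le_mul_of_nonneg_left hmu hNr.le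
          · positivity
          · positivity
        refine le_trans ?_ h7
        have h8 : δ * (cm / L) * (N * (1 / (2 * L ^ K))) = (N / L ^ (K + 2)) * (δ * cm * L / 2) := by
          rw [pow_add]
          field_simp
        rw [h8]
        have h9 : 1 ≤ δ * cm * L / 2 := by
          have h10 : 2 / (δ * cm) ≤ L := by linarith
          rw [div_le_iff₀ (by positivity)] at h10
          linarith
        exact le_mul_of_one_le_right (by positivity) h9
      have h7 := mul_le_mul_of_nonneg_right (h5.trans h6) hUr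
      refine h7.trans (le_of_eq ?_)
      ring
    linarith
  have h2 : ∑ n ∈ range N, w' n * S (n * mi + J0) = N * V (PQ Q) * ∑ j ∈ Ioc J0 (J0 + J), RP.GG Q c (j * m) := by
    rw [mul_sum]
    have g1 : ∀ j ∈ Ioc J0 (J0 + J), N * V (PQ Q) * RP.GG Q c (j * m) =
        ∑ n ∈ range N, wt Q c n * (if (∀ p ∈ PQ Q, ¬ p ∣ n + j * m) then 1 else 0) :=
      fun j _ => (sum_wt_free Q N (j * m) c hN0 hdN).symm
    rw [sum_congr rfl g1, sum_comm]
    apply sum_congr rfl
    intro n _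
    rw [← mul_sum, SJ_eq Q m mi J0 J n hmip, hw', hS, hPd]
    ring
  rw [h2, hsw', V_split Q m, ← hPd] at h1
  have hNV : 0 < (N : ℝ) * (V (PD Q m) * V P) := by positivity
  have h3 : N * (V (PD Q m) * V P) * |∑ j ∈ Ioc J0 (J0 + J), RP.GG Q c (j * m) - J * (mu' / V (PD Q m))| ≤
      N * (V (PD Q m) * V P) * (2 * δ * (J * (mu' / V (PD Q m)))) := by
    have e3 : N * (V (PD Q m) * V P) * |∑ j ∈ Ioc J0 (J0 + J), RP.GG Q c (j * m) - J * (mu' / V (PD Q m))| =
        |N * (V (PD Q m) * V P) * ∑ j ∈ Ioc J0 (J0 + J), RP.GG Q c (j * m) - J * V P * (N * mu')| := by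
      have e4 : N * (V (PD Q m) * V P) * ∑ j ∈ Ioc J0 (J0 + J), RP.GG Q c (j * m) - J * V P * (N * mu') =
          (N * (V (PD Q m) * V P)) * (∑ j ∈ Ioc J0 (J0 + J), RP.GG Q c (j * m) - J * (mu' / V (PD Q m))) := by
        field_simp
      rw [e4, abs_mul, abs_of_pos hNV]
    rw [e3]
    refine h1.trans (le_of_eq ?_)
    field_simp
  rw [← hδ]
  exact le_of_mul_le_mul_left h3 hNV


/-- **Sieve weights on residue classes** -/
theorem classes (K A b : ℕ) : ∃ C0 : ℝ, 1 ≤ C0 ∧ ∃ B X0 : ℕ, ∀ m : ℕ, X0 ≤ m → ∀ J0 J Q : ℕ,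
    C0 * Real.log (Real.log m) ≤ m / m.totient * (J / Real.log m) →
    ((J0 + J : ℕ) : ℝ) ≤ Real.log m ^ A → 1 ≤ Q →
    (Q : ℝ) ^ 2 * Real.log m ^ B ≤ m →
    ∀ c : ℕ → ℕ → ℝ, (∀ n, 0 ≤ wt Q c n) → ∑ d ∈ Icc 1 Q, ss c d ^ 2 / d ≤ Real.log m ^ K →
    m / Real.log m ^ K ≤ WW Q m c →
    |∑ n ∈ Ioc m (2 * m), wt Q c n * (((Ioc J0 (J0 + J)).filter (fun j => (n + j * m).Prime)).card : ℝ) -
      J / Real.log m * (m / m.totient) * WW Q m c| ≤
      (1 / 2 : ℝ) ^ b * (J / Real.log m * (m / m.totient) * WW Q m c) := by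
  classical
  obtain ⟨x, hx⟩ : ∃ x : ℝ, x = (1 / 2 : ℝ) ^ (b + 4) := ⟨_, rfl⟩
  have hx0 : 0 < x := by rw [hx]; positivity
  have hxb : (1 / 2 : ℝ) ^ b = 16 * x := by rw [hx, pow_add]; norm_num; ring
  have hx1 : x ≤ 1 / 16 := by
    have : (1 / 2 : ℝ) ^ b ≤ 1 := pow_le_one₀ (by norm_num) (by norm_num)
    linarith
  obtain ⟨B, X1, hsh⟩ := shift_big K (K + 3) A
  obtain ⟨X2, hpr⟩ := short_pr A x hx0 (by linarith)
  obtain ⟨C0, hC0, X3, hmod⟩ := modelJ K (b + 5)
  obtain ⟨X4, hmass⟩ := massmu K x hx0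
  obtain ⟨ct, hct, X6, htot⟩ := tot_bound
  obtain ⟨X5, hX5⟩ := (((log_tend.eventually_ge_atTop (1 + 4 / x)).and
    (ll_tend.eventually_ge_atTop 1)).and (eventually_ge_atTop 3)).exists_forall_of_atTop
  refine ⟨max C0 (1 / ct), hC0.trans (le_max_left _ _), max B K,
    max (max X1 X2) (max (max X3 X4) (max X5 X6)), ?_⟩
  intro m hm J0 J Q hJ hJA hQ hQm c hw hc hW
  simp only [max_le_iff] at hm
  obtain ⟨⟨m1, m2⟩, ⟨⟨m3, m4⟩, ⟨m5, m6⟩⟩⟩ := hm
  obtain ⟨⟨e1, e1'⟩, e2⟩ := hX5 m m5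
  have hmr : (0 : ℝ) < m := by exact_mod_cast (by omega : 0 < m)
  have hL1 : 1 ≤ Real.log (m : ℝ) := by
    have : 0 ≤ 4 / x := by positivity
    linarith
  have hφ00 : (0 : ℝ) < m.totient := by exact_mod_cast Nat.totient_pos.2 (by omega)
  have hJ1 : C0 * Real.log (Real.log m) ≤ m / m.totient * (J / Real.log m) :=
    le_trans (mul_le_mul_of_nonneg_right (le_max_left _ _) (by linarith)) hJ
  have hJ2 : Real.log m ≤ J := by
    have g1 : 1 / ct * Real.log (Real.log m) ≤ m / m.totient * (J / Real.log m) :=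
      le_trans (mul_le_mul_of_nonneg_right (le_max_right _ _) (by linarith)) hJ
    have g2 : (m : ℝ) / m.totient ≤ Real.log (Real.log m) / ct := by
      have g3 := htot m m6
      rw [div_le_div_iff₀ (by linarith) hmr] at g3
      rw [div_le_div_iff₀ hφ00 hct]
      linarith
    have g3 : m / m.totient * (J / Real.log m) ≤ Real.log (Real.log m) / ct * (J / Real.log m) :=
      mul_le_mul_of_nonneg_right g2 (by positivity)
    have g4 : Real.log (Real.log m) / ct * 1 ≤ Real.log (Real.log m) / ct * (J / Real.log m) := by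
      refine le_trans (le_of_eq ?_) (g1.trans g3)
      ring
    have g5 := le_of_mul_le_mul_left g4 (by positivity)
    rwa [le_div_iff₀ (by linarith), one_mul] at g5
  have hL4 : 4 ≤ x * Real.log m := by
    have h1 : 4 / x ≤ Real.log m := by linarith
    rw [div_le_iff₀ hx0] at h1
    linarith
  have hQr : (1 : ℝ) ≤ Q := by exact_mod_cast hQ
  have hQB : (Q : ℝ) ^ 2 * Real.log m ^ B ≤ m := by
    refine le_trans ?_ hQm
    apply mul_le_mul_of_nonneg_left _ (by positivity)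
    exact pow_le_pow_right₀ hL1 (le_max_left _ _)
  have hQK : (Q : ℝ) ^ 2 * Real.log m ^ K ≤ m := by
    refine le_trans ?_ hQm
    apply mul_le_mul_of_nonneg_left _ (by positivity)
    exact pow_le_pow_right₀ hL1 (le_max_right _ _)
  have hQle : Q ≤ m := by
    have h1 : (1 : ℝ) ≤ Real.log m ^ K := one_le_pow₀ hL1
    have h2 : (Q : ℝ) ≤ m := by nlinarith
    exact_mod_cast h2
  have hms := hmass m m4 Q hQ hQK c hc
  obtain ⟨L, hL⟩ : ∃ L : ℝ, L = Real.log m := ⟨_, rfl⟩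
  obtain ⟨W, hWd⟩ : ∃ W : ℝ, W = WW Q m c := ⟨_, rfl⟩
  obtain ⟨mu', hmu'⟩ : ∃ mu' : ℝ, mu' = muD Q m c := ⟨_, rfl⟩
  have hVR0 : 0 < V (PR Q m) := V_pos fun p hp => (Nat.mem_primeFactors.1 (mem_filter.1 hp).1).1
  have hVR1 : V (PR Q m) ≤ 1 := V_le_one fun p hp => (Nat.mem_primeFactors.1 (mem_filter.1 hp).1).1
  have hVD0 : 0 < V (PD Q m) := V_pos fun p hp => (mem_PQ.1 (mem_filter.1 hp).1).1
  have hφ := phi_split Q m (by omega)
  have hφ0 : (0 : ℝ) < m.totient := by exact_mod_cast Nat.totient_pos.2 (by omega)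
  -- lower bound for the mean value
  have hmu : 1 / (2 * Real.log m ^ K) ≤ muD Q m c := by
    rw [← hWd, ← hmu', ← hL] at hms
    rw [← hWd, ← hL] at hW
    rw [← hmu', ← hL]
    rw [← hL] at hL1
    have h1 := (abs_le.1 hms).2
    have h2 : x * (m / L ^ K) ≤ 1 / 2 * (m / L ^ K) := mul_le_mul_of_nonneg_right (by linarith) (by positivity)
    have h3 : 1 / 2 * (m / L ^ K) ≤ m * (V (PR Q m) * mu') := by linarith
    have h4 : (m : ℝ) * (1 / (2 * L ^ K)) ≤ m * (V (PR Q m) * mu') := by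
      refine le_trans (le_of_eq ?_) h3
      field_simp
    have h5 := le_of_mul_le_mul_left h4 hmr
    have h6 : 0 < V (PR Q m) * mu' := lt_of_lt_of_le (by positivity) h5
    have h7 : 0 < mu' := by
      by_contra h8
      have h9 : V (PR Q m) * mu' ≤ 0 := mul_nonpos_of_nonneg_of_nonpos hVR0.le (not_lt.1 h8)
      linarith
    have h8 : V (PR Q m) * mu' ≤ 1 * mu' := mul_le_mul_of_nonneg_right hVR1 h7.le
    linarith
  have hmd := hmod m m3 J0 J Q hJ2 hJ1 hQ hQle c hw hc hmu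
  have hbx : 2 * (1 / 2 : ℝ) ^ (b + 5) = x := by
    rw [hx, pow_succ (1 / 2 : ℝ) (b + 4)]
    ring
  rw [hbx, ← hmu'] at hmd
  rw [← hmu', ← hL] at hmu
  rw [← hWd, ← hmu', ← hL] at hms
  rw [← hWd, ← hL] at hW ⊢
  rw [← hL] at hL1 hL4 hJA
  have hL0 : 0 < L := by linarith
  have hJ0r : (0 : ℝ) ≤ J := Nat.cast_nonneg _
  have hmu0 : 0 < mu' := lt_of_lt_of_le (by positivity) hmu
  -- the sum over the shifts
  obtain ⟨G, hG⟩ : ∃ G : ℝ, G = ∑ j ∈ Ioc J0 (J0 + J), RP.GG Q c (j * m) := ⟨_, rfl⟩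
  have hG0 : 0 ≤ G := by rw [hG]; exact sum_nonneg fun j _ => GG_nonneg Q _ c hw
  rw [← hG] at hmd
  obtain ⟨S, hS⟩ : ∃ S : ℝ, S = ∑ n ∈ Ioc m (2 * m), wt Q c n *
    (((Ioc J0 (J0 + J)).filter (fun j => (n + j * m).Prime)).card : ℝ) := ⟨_, rfl⟩
  have hS2 : S = ∑ j ∈ Ioc J0 (J0 + J), ∑ n ∈ Ioc m (2 * m), wt Q c n * (if (n + j * m).Prime then 1 else 0) := by
    rw [hS, sum_comm]
    apply sum_congr rfl
    intro n _
    rw [← mul_sum, card_filter]
    push_cast
    rfl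
  have hSG : |S - m / L * G| ≤ x * (m / L * G) + J * (2 * (m / L ^ (K + 3))) := by
    rw [hS2, hG, mul_sum, ← sum_sub_distrib]
    refine (abs_sum_le_sum_abs _ _).trans ?_
    have h1 : ∀ j ∈ Ioc J0 (J0 + J), |∑ n ∈ Ioc m (2 * m), wt Q c n * (if (n + j * m).Prime then 1 else 0) -
        m / L * RP.GG Q c (j * m)| ≤ x * (m / L * RP.GG Q c (j * m)) + 2 * (m / L ^ (K + 3)) := by
      intro j hj
      rw [mem_Ioc] at hj
      have h2 : ((j * m : ℕ) : ℝ) ≤ m * Real.log m ^ A := by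
        push_cast
        rw [mul_comm, ← hL]
        apply mul_le_mul_of_nonneg_left _ hmr.le
        refine le_trans ?_ hJA
        exact_mod_cast hj.2
      have h3 := hsh m m1 Q hQ hQB c hc (j * m) h2
      obtain ⟨h4, h5⟩ := hpr m m2 (j * m) h2
      rw [← hL] at h3 h4 h5
      have h6 := GG_nonneg Q (j * m) c hw
      have h7 := mul_le_mul_of_nonneg_right h4 h6
      have h8 := mul_le_mul_of_nonneg_right h5 h6
      have h9 := abs_le.1 h3
      rw [abs_le]
      constructor <;> linarith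
    refine (sum_le_sum h1).trans (le_of_eq ?_)
    rw [sum_add_distrib, ← mul_sum, ← mul_sum, sum_const, Nat.card_Ioc, nsmul_eq_mul]
    congr 2
    push_cast
    congr 1
    omega
  -- the main term of the model
  obtain ⟨T, hT⟩ : ∃ T : ℝ, T = m / L * (J * (mu' / V (PD Q m))) := ⟨_, rfl⟩
  have hT0 : 0 ≤ T := by rw [hT]; positivity
  have hGT : |m / L * G - T| ≤ x * T := by
    have h1 : m / L * G - T = m / L * (G - J * (mu' / V (PD Q m))) := by rw [hT]; ring
    rw [h1, abs_mul, abs_of_pos (by positivity : (0 : ℝ) < m / L)]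
    have h2 := mul_le_mul_of_nonneg_left hmd (show (0 : ℝ) ≤ m / L by positivity)
    refine h2.trans (le_of_eq ?_)
    rw [hT]
    ring
  -- comparison with the mass
  obtain ⟨T0, hT0d⟩ : ∃ T0 : ℝ, T0 = J / L * (m / m.totient) * W := ⟨_, rfl⟩
  have hTT : |T - T0| ≤ x * T0 := by
    have h1 : T = J / L * (m / m.totient) * (m * (V (PR Q m) * mu')) := by
      have h2 : (m.totient : ℝ) = m * (V (PD Q m) * V (PR Q m)) := by
        rw [← hφ]
        field_simp
      rw [hT, h2]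
      field_simp
    have h2 : T - T0 = -(J / L * (m / m.totient) * (W - m * (V (PR Q m) * mu'))) := by
      rw [h1, hT0d]
      ring
    rw [h2, abs_neg, abs_mul, abs_of_nonneg (by positivity : (0 : ℝ) ≤ J / L * (m / m.totient))]
    have h3 : |W - m * (V (PR Q m) * mu')| ≤ x * W := hms.trans (mul_le_mul_of_nonneg_left hW hx0.le)
    refine (mul_le_mul_of_nonneg_left h3 (by positivity)).trans (le_of_eq ?_)
    rw [hT0d]
    ring
  have hT00 : 0 ≤ T0 := by
    have h1 : 0 ≤ W := le_trans (by positivity) hW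
    rw [hT0d]
    positivity
  have hErr : J * (2 * (m / L ^ (K + 3))) ≤ x * T := by
    have h1 : mu' ≤ mu' / V (PD Q m) := by
      rw [le_div_iff₀ hVD0]
      have h2 : V (PD Q m) ≤ 1 := V_le_one fun p hp => (mem_PQ.1 (mem_filter.1 hp).1).1
      exact mul_le_of_le_one_right hmu0.le h2
    have h2 : m / L * (J * (1 / (2 * L ^ K))) ≤ T := by
      rw [hT]
      apply mul_le_mul_of_nonneg_left _ (by positivity)
      apply mul_le_mul_of_nonneg_left _ hJ0r
      exact hmu.trans h1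
    have h3 : J * (2 * (m / L ^ (K + 3))) = (4 / L ^ 2) * (m / L * (J * (1 / (2 * L ^ K)))) := by
      rw [pow_add]
      field_simp
      ring
    rw [h3]
    have h4 : 4 / L ^ 2 ≤ x := by
      rw [div_le_iff₀ (by positivity)]
      nlinarith
    exact mul_le_mul h4 h2 (by positivity) hx0.le
  rw [← hS, ← hT0d, hxb]
  have k1 := abs_le.1 hSG
  have k2 := abs_le.1 hGT
  have k3 := abs_le.1 hTT
  have k40 : x * T0 ≤ T0 := mul_le_of_le_one_left hT00 (by linarith)
  have k4 : T ≤ 2 * T0 := by linarith [k3.2]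
  have k50 : x * T ≤ T := mul_le_of_le_one_left hT0 (by linarith)
  have k5 : m / L * G ≤ 2 * T := by linarith [k2.2]
  have k6 : x * (m / L * G) ≤ x * (2 * T) := mul_le_mul_of_nonneg_left k5 hx0.le
  have k7 : x * T ≤ x * (2 * T0) := mul_le_mul_of_nonneg_left k4 hx0.le
  have k8 : 0 ≤ x * T0 := by positivity
  rw [abs_le]
  constructor <;> linarith [k1.1, k1.2, k2.1, k2.2, k3.1, k3.2]


end Pool.Agent.X29.SWL
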